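import Mathlib

/-!
Arithmetic in the Gaussian integers: avoiding primes, primitive representatives, rational primes in
residue classes, square roots and the Frobenius congruence modulo inert primes.
-/

namespace Pool.Agent.Lib.MP_19a1ab_nt

theorem avoid {A : Type} [CommRing A] [IsDomain A] [IsPrincipalIdealRing A] (f : A → A)
    (hf : ∀ a b, a - b ∣ f a - f b) (K : A) :
    K ≠ 0 → (∀ p, Prime p → p ∣ K → ∃ t, ¬ p ∣ f t) → ∃ t, IsCoprime (f t) K := by
  refine UniqueFactorizationMonoid.induction_on_prime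
    (P := fun K => K ≠ 0 → (∀ p, Prime p → p ∣ K → ∃ t, ¬ p ∣ f t) → ∃ t, IsCoprime (f t) K)
    K ?_ ?_ ?_
  · intro h; exact absurd rfl h
  · intro x hx _ _
    obtain ⟨v, hv⟩ := hx.exists_left_inv
    exact ⟨0, 0, v, by rw [zero_mul, zero_add, hv]⟩
  · intro K p hK hp ih _ h
    obtain ⟨t0, ht0⟩ := ih hK (fun r hr hrK => h r hr (hrK.mul_left p))
    by_cases hpK : p ∣ K
    · exact ⟨t0, (ht0.of_isCoprime_of_dvd_right hpK).mul_right ht0⟩
    · obtain ⟨t1, ht1⟩ := h p hp (dvd_mul_right p K)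
      obtain ⟨u, v, huv⟩ := hp.coprime_iff_not_dvd.mpr hpK
      refine ⟨t0 + (t1 - t0) * v * K, IsCoprime.mul_right ?_ ?_⟩
      · refine (hp.coprime_iff_not_dvd.mpr ?_).symm
        intro hd
        apply ht1
        have h1 : p ∣ (t0 + (t1 - t0) * v * K) - t1 :=
          ⟨(t0 - t1) * u, by linear_combination (t1 - t0) * huv⟩
        have h2 := h1.trans (hf _ _)
        have h3 := hd.sub h2
        rwa [sub_sub_cancel] at h3
      · have h1 : K ∣ (t0 + (t1 - t0) * v * K) - t0 := ⟨(t1 - t0) * v, by ring⟩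
        obtain ⟨w, hw⟩ := h1.trans (hf _ _)
        have h2 : f (t0 + (t1 - t0) * v * K) = f t0 + K * w := by linear_combination hw
        rw [h2]
        exact ht0.add_mul_left_left w

theorem gnorm (a : GaussianInt) : a.norm = a.re ^ 2 + a.im ^ 2 := by
  rw [Zsqrtd.norm_def]; ring

theorem coprime_int {m n : ℤ} (h : IsCoprime (m : GaussianInt) (n : GaussianInt)) :
    IsCoprime m n := by
  obtain ⟨u, v, huv⟩ := h
  refine ⟨u.re, v.re, ?_⟩
  have h1 := congrArg Zsqrtd.re huv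
  simpa using h1

theorem coprime_cast {m n : ℤ} (h : IsCoprime m n) :
    IsCoprime (m : GaussianInt) (n : GaussianInt) := by
  obtain ⟨u, v, huv⟩ := h
  exact ⟨u, v, by exact_mod_cast huv⟩

theorem coprime_star {a b : GaussianInt} (h : IsCoprime a b) : IsCoprime (star a) (star b) := by
  obtain ⟨u, v, huv⟩ := h
  refine ⟨star u, star v, ?_⟩
  have h1 := congrArg star huv
  simp only [star_add, star_mul', star_one] at h1
  exact h1

theorem coprime_norm_int {a : GaussianInt} {c : ℤ} (h : IsCoprime a (c : GaussianInt)) :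
    IsCoprime a.norm c := by
  apply coprime_int
  rw [Zsqrtd.norm_eq_mul_conj]
  have h1 := coprime_star h
  rw [star_intCast] at h1
  exact h.mul_left h1

theorem coprime_norm {a b : GaussianInt} (h : IsCoprime a b) (h' : IsCoprime a (star b)) :
    IsCoprime a.norm b.norm := by
  apply coprime_norm_int
  rw [Zsqrtd.norm_eq_mul_conj]
  exact h.mul_right h'

theorem nice_one {a m : GaussianInt} (h : IsCoprime a m) (hm : m ≠ 0) :
    ∃ a1 : GaussianInt, m ∣ a1 - a ∧ IsCoprime a1.norm m.norm ∧ a1.im ≠ 0 := by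
  have hs : star m ≠ 0 := by simpa using hm
  obtain ⟨t, ht⟩ := avoid (fun t => a + m * t) (fun s t => ⟨m, by ring⟩) (star m) hs (by
    intro p hp _
    by_contra hcon
    push Not at hcon
    have h0 := hcon 0
    have h1 := hcon 1
    have h2 : p ∣ m := by
      have h3 := h1.sub h0
      simpa using h3
    have h4 : p ∣ a := by simpa using h0
    exact hp.not_isUnit (h.isUnit_of_dvd' h4 h2))
  have hc : IsCoprime (a + m * t) m := h.add_mul_left_left t
  by_cases him : (a + m * t).im = 0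
  · refine ⟨a + m * t + m * star m * Zsqrtd.sqrtd, ⟨t + star m * Zsqrtd.sqrtd, by ring⟩, ?_, ?_⟩
    · apply coprime_norm
      · have h5 := hc.add_mul_left_left (star m * Zsqrtd.sqrtd)
        rwa [← mul_assoc] at h5
      · have h5 := ht.add_mul_left_left (m * Zsqrtd.sqrtd)
        have h6 : star m * (m * Zsqrtd.sqrtd) = m * star m * Zsqrtd.sqrtd := by ring
        rwa [h6] at h5
    · rw [← Zsqrtd.norm_eq_mul_conj, Zsqrtd.im_add, him]
      have h7 : m.norm ≠ 0 := by simpa using hm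
      simpa using h7
  · exact ⟨a + m * t, ⟨t, by ring⟩, coprime_norm hc ht, him⟩

theorem nice {a m : GaussianInt} (h : IsCoprime a m) (hm : m ≠ 0) :
    ∃ a1 : GaussianInt, m ∣ a1 - a ∧ IsCoprime a1.re a1.im ∧ IsCoprime a1.norm 2 ∧
      IsCoprime a1.norm (4 * a1.im ^ 2 + 1) := by
  obtain ⟨a1, h1, h2, h3⟩ := nice_one h hm
  have hK : a1.im * (2 * (4 * a1.im ^ 2 + 1)) ≠ 0 := by
    apply mul_ne_zero h3
    positivity
  obtain ⟨t, ht⟩ := avoid (fun t : ℤ => (a1.re + m.norm * t) ^ 2 + a1.im ^ 2)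
    (fun s t => ⟨m.norm * (2 * a1.re + m.norm * (s + t)), by ring⟩) _ hK (by
    intro p hp _
    by_cases hpm : p ∣ m.norm
    · refine ⟨0, fun hd => hp.not_isUnit (h2.isUnit_of_dvd' ?_ hpm)⟩
      rw [gnorm]
      simpa using hd
    · obtain ⟨u, v, huv⟩ := hp.coprime_iff_not_dvd.mpr hpm
      by_contra hcon
      push Not at hcon
      have h0 := hcon (-a1.re * v)
      have h4 := hcon ((1 - a1.re) * v)
      have e0 : a1.re + m.norm * (-a1.re * v) = p * (a1.re * u) := by
        linear_combination (-a1.re) * huv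
      have e4 : a1.re + m.norm * ((1 - a1.re) * v) = 1 + p * ((a1.re - 1) * u) := by
        linear_combination (1 - a1.re) * huv
      rw [e0] at h0
      rw [e4] at h4
      have h5 := h4.sub h0
      have h6 : p ∣ (1 + p * ((a1.re - 1) * u)) ^ 2 + a1.im ^ 2 -
          ((p * (a1.re * u)) ^ 2 + a1.im ^ 2) - 1 :=
        ⟨2 * ((a1.re - 1) * u) + p * ((a1.re - 1) * u) ^ 2 - p * (a1.re * u) ^ 2, by ring⟩
      have h7 := h5.sub h6
      rw [sub_sub_cancel] at h7
      exact hp.not_dvd_one h7)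
  refine ⟨⟨a1.re + m.norm * t, a1.im⟩, ?_, ?_, ?_, ?_⟩
  · have e : (⟨a1.re + m.norm * t, a1.im⟩ : GaussianInt) - a = (a1 - a) + m * (star m * t) := by
      rw [← mul_assoc, ← Zsqrtd.norm_eq_mul_conj]
      ext <;> simp
      ring
    rw [e]
    exact h1.add (dvd_mul_right _ _)
  · obtain ⟨u, v, huv⟩ := ht.of_mul_right_left
    exact ⟨u * (a1.re + m.norm * t), u * a1.im + v, by linear_combination huv⟩
  · rw [gnorm]
    exact ht.of_mul_right_right.of_mul_right_left
  · rw [gnorm]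
    exact ht.of_mul_right_right.of_mul_right_right

theorem rat_rep {a : GaussianInt} (h : IsCoprime a.re a.im) (c : GaussianInt) :
    ∃ c0 : ℤ, a ∣ c - c0 := by
  obtain ⟨u, v, huv⟩ := h
  refine ⟨c.re + c.im * (a.im * u - a.re * v), ⟨c.im * v, c.im * u⟩, ?_⟩
  ext
  · simp; ring
  · simp; linear_combination (-c.im) * huv

theorem exists_prime {a m : ℤ} (hm : m ≠ 0) (h : IsCoprime a m) :
    ∃ q : ℕ, q.Prime ∧ m ∣ (q : ℤ) - a := by
  have h1 : IsCoprime a (m.natAbs : ℤ) := by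
    rw [Int.natCast_natAbs]
    exact (IsCoprime.abs_right_iff a m).mpr h
  obtain ⟨q, _, hq, hqa⟩ := Nat.forall_exists_prime_gt_and_zmodEq 0 (Int.natAbs_ne_zero.mpr hm) h1
  refine ⟨q, hq, ?_⟩
  have h2 := hqa.symm.dvd
  exact Int.natAbs_dvd.mp h2

theorem exists_prime_crt {c r N m : ℤ} (hN : N ≠ 0) (hm : m ≠ 0) (h : IsCoprime N m)
    (hc : IsCoprime c N) (hr : IsCoprime r m) :
    ∃ q : ℕ, q.Prime ∧ N ∣ (q : ℤ) - c ∧ m ∣ (q : ℤ) - r := by
  obtain ⟨u, v, huv⟩ := h
  have e1 : c * (v * m) + r * (u * N) = c + N * ((r - c) * u) := by linear_combination c * huv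
  have e2 : c * (v * m) + r * (u * N) = r + m * ((c - r) * v) := by linear_combination r * huv
  have h1 : IsCoprime (c * (v * m) + r * (u * N)) (N * m) := by
    apply IsCoprime.mul_right
    · rw [e1]; exact hc.add_mul_left_left _
    · rw [e2]; exact hr.add_mul_left_left _
  obtain ⟨q, hq, k, hk⟩ := exists_prime (mul_ne_zero hN hm) h1
  exact ⟨q, hq, ⟨m * k + (r - c) * u, by linear_combination hk + e1⟩,
    ⟨N * k + (c - r) * v, by linear_combination hk + e2⟩⟩

theorem sq_or_neg {F : Type} [Field F] [Fintype F] (h : ¬ IsSquare (-1 : F)) (w : F) :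
    IsSquare w ∨ IsSquare (-w) := by
  classical
  by_contra hcon
  push Not at hcon
  have h1 := quadraticChar_neg_one_iff_not_isSquare.mpr h
  have h2 := quadraticChar_neg_one_iff_not_isSquare.mpr hcon.1
  have h3 := quadraticChar_neg_one_iff_not_isSquare.mpr hcon.2
  rw [← neg_one_mul, map_mul, h1, h2] at h3
  norm_num at h3

theorem field_sqrt {F : Type} [Field F] [Fintype F] (h : ¬ IsSquare (-1 : F)) {s t m : F}
    (hm : s ^ 2 + t ^ 2 = m * m) : ∃ u v : F, u ^ 2 - v ^ 2 = s ∧ 2 * u * v = t := by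
  have h2 : (2 : F) ≠ 0 := by
    intro h2
    exact h ⟨1, by linear_combination -h2⟩
  by_cases ht : t = 0
  · rcases sq_or_neg h s with ⟨u, hu⟩ | ⟨v, hv⟩
    · exact ⟨u, 0, by linear_combination -hu, by linear_combination -ht⟩
    · exact ⟨0, v, by linear_combination hv, by linear_combination -ht⟩
  have hsm : s + m ≠ 0 := by
    intro h0
    apply ht
    apply pow_eq_zero_iff (two_ne_zero) |>.mp
    linear_combination hm - (s - m) * h0
  rcases sq_or_neg h ((s + m) / 2) with ⟨u, hu⟩ | ⟨v, hv⟩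
  · have hu' : s + m = 2 * (u * u) := by rw [← hu]; field_simp
    have hu0 : u ≠ 0 := by
      intro h0
      apply hsm
      rw [hu', h0]; ring
    refine ⟨u, t / (2 * u), ?_, by field_simp⟩
    field_simp
    linear_combination -hm + (s - m - 2 * u * u) * hu'
  · have hv' : s + m = -2 * (v * v) := by rw [← hv]; field_simp
    have hv0 : v ≠ 0 := by
      intro h0
      apply hsm
      rw [hv', h0]; ring
    refine ⟨t / (2 * v), v, ?_, by field_simp⟩
    field_simp
    linear_combination hm - (s - m + 2 * v * v) * hv'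

theorem jac_one {n q : ℕ} (hn : 0 < n) (hq : 4 * n ∣ q + 1) : jacobiSym n q = 1 := by
  obtain ⟨k, hk⟩ := hq
  have hk0 : 0 < k := by
    rcases Nat.eq_zero_or_pos k with h0 | h0
    · rw [h0] at hk; omega
    · exact h0
  obtain ⟨j, rfl⟩ : ∃ j, k = j + 1 := ⟨k - 1, by omega⟩
  obtain ⟨b, hb⟩ : ∃ b, 4 * n = b + 1 := ⟨4 * n - 1, by omega⟩
  have hqb : q = b + 4 * n * j := by
    have : q + 1 = 4 * n * j + 4 * n := by rw [hk]; ring
    omega
  have hbo : Odd b := ⟨2 * n - 1, by omega⟩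
  have hqo : Odd q := by
    rw [hqb]
    exact hbo.add_even ⟨2 * n * j, by ring⟩
  rw [jacobiSym.mod_right' n hqo, hqb, Nat.add_mul_mod_self_left, Nat.mod_eq_of_lt (by omega)]
  have h1 : jacobiSym (4 * n) b = jacobiSym 1 b := by
    apply jacobiSym.mod_left'
    have : (4 * n : ℤ) = 1 + b * 1 := by
      have := congrArg (fun x : ℕ => (x : ℤ)) hb
      push_cast at this
      linarith
    rw [this, Int.add_mul_emod_self_left]
  rw [jacobiSym.mul_left, jacobiSym.at_four hbo, jacobiSym.one_left, one_mul] at h1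
  exact h1

theorem gauss_sqrt {a : GaussianInt} (ha : a ≠ 0) {q : ℕ} (hq : q.Prime)
    (h : 4 * a.norm ∣ (q : ℤ) + 1) : ∃ x : GaussianInt, (q : GaussianInt) ∣ a - x ^ 2 := by
  have := Fact.mk hq
  have hpos : 0 < a.norm := GaussianInt.norm_pos.mpr ha
  obtain ⟨n, hn⟩ := Int.eq_ofNat_of_zero_le hpos.le
  have hn0 : 0 < n := by omega
  have hd : 4 * n ∣ q + 1 := by
    rw [hn] at h
    exact_mod_cast h
  obtain ⟨m, hm⟩ := ZMod.isSquare_of_jacobiSym_eq_one (jac_one hn0 hd)
  have h4 : q % 4 = 3 := by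
    obtain ⟨k, hk⟩ := hd
    have : q + 1 = 4 * (n * k) := by rw [hk]; ring
    omega
  have hneg : ¬ IsSquare (-1 : ZMod q) := by
    rw [FiniteField.isSquare_neg_one_iff, ZMod.card]
    simpa using h4
  have hm' : (a.re : ZMod q) ^ 2 + (a.im : ZMod q) ^ 2 = m * m := by
    rw [← hm, ← hn, gnorm]
    push_cast
    rfl
  obtain ⟨u, v, h1, h2⟩ := field_sqrt hneg hm'
  obtain ⟨u, rfl⟩ := ZMod.intCast_surjective u
  obtain ⟨v, rfl⟩ := ZMod.intCast_surjective v
  refine ⟨⟨u, v⟩, ?_⟩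
  have e : ((q : ℤ) : GaussianInt) = (q : GaussianInt) := Int.cast_natCast q
  rw [← e, Zsqrtd.intCast_dvd]
  constructor
  · rw [← ZMod.intCast_zmod_eq_zero_iff_dvd]
    simp [sq]
    linear_combination -h1
  · rw [← ZMod.intCast_zmod_eq_zero_iff_dvd]
    simp [sq]
    linear_combination -h2

theorem fermat (x : ℤ) {q : ℕ} (hq : q.Prime) : (q : ℤ) ∣ x ^ q - x := by
  have := Fact.mk hq
  rw [← ZMod.intCast_zmod_eq_zero_iff_dvd]
  push_cast
  rw [ZMod.pow_card, sub_self]

theorem frob (a : GaussianInt) {q : ℕ} (hq : q.Prime) (h : 4 ∣ q + 1) :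
    (q : GaussianInt) ∣ a ^ (q + 1) - (a.norm : GaussianInt) := by
  obtain ⟨I, hIdef⟩ : ∃ I : GaussianInt, I = ⟨0, 1⟩ := ⟨_, rfl⟩
  obtain ⟨r, hr⟩ := exists_add_pow_prime_eq hq (a.re : GaussianInt) (I * (a.im : GaussianInt))
  have hI : I * I = -1 := by rw [hIdef]; ext <;> simp
  have ha : (a.re : GaussianInt) + I * (a.im : GaussianInt) = a := by rw [hIdef]; ext <;> simp
  have hs : star a = (a.re : GaussianInt) - I * (a.im : GaussianInt) := by
    rw [hIdef]; ext <;> simp
  obtain ⟨k, hk⟩ : ∃ k, q = 4 * k + 3 := ⟨q / 4, by omega⟩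
  have hIq : I ^ q = -I := by
    have h4 : I ^ 4 = 1 := by linear_combination (I * I - 1) * hI
    rw [hk, pow_add, pow_mul, h4, one_pow]
    linear_combination I * hI
  obtain ⟨u, hu⟩ := fermat a.re hq
  obtain ⟨v, hv⟩ := fermat a.im hq
  have hu' : (a.re : GaussianInt) ^ q - a.re = q * u := by exact_mod_cast hu
  have hv' : (a.im : GaussianInt) ^ q - a.im = q * v := by exact_mod_cast hv
  rw [ha, mul_pow, hIq] at hr
  refine ⟨a * (u - I * v + a.re * (I * a.im) * r), ?_⟩
  rw [Zsqrtd.norm_eq_mul_conj, hs, pow_succ, hr]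
  linear_combination a * hu' - a * I * hv'

theorem fourth {z : GaussianInt} {n : ℤ} {q : ℕ} (hq : q.Prime) (h4 : 4 ∣ q + 1)
    (h : (q : GaussianInt) ∣ z ^ 4 - n) :
    ∃ (u : GaussianInt) (r : ℤ), u ∣ (q : GaussianInt) - 1 ∧ (q : GaussianInt) ∣ z - u * r := by
  have e : ((q : ℤ) : GaussianInt) = (q : GaussianInt) := Int.cast_natCast q
  obtain ⟨k, hk⟩ : ∃ k, q = 2 * k + 1 := ⟨q / 2, by omega⟩
  have hq2 : (q : GaussianInt) - 1 = 2 * k := by rw [hk]; push_cast; ring
  rw [hq2]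
  rw [← e, Zsqrtd.intCast_dvd] at h
  have him : (z ^ 4 - n).im = 2 * 2 * z.re * z.im * (z.re - z.im) * (z.re + z.im) := by
    have : z ^ 4 = z * z * z * z := by ring
    rw [this]
    simp
    ring
  have h1 := h.2
  rw [him] at h1
  have hp : Prime (q : ℤ) := Nat.prime_iff_prime_int.mp hq
  have hn2 : ¬ (q : ℤ) ∣ 2 := by
    intro h2
    have h3 : q ∣ 2 := by exact_mod_cast h2
    have h5 := Nat.le_of_dvd two_pos h3
    omega
  rw [← e]
  rcases hp.dvd_or_dvd h1 with h1 | h1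
  · rcases hp.dvd_or_dvd h1 with h1 | h1
    · rcases hp.dvd_or_dvd h1 with h1 | h1
      · rcases hp.dvd_or_dvd h1 with h1 | h1
        · rcases hp.dvd_or_dvd h1 with h1 | h1 <;> exact absurd h1 hn2
        · refine ⟨⟨0, 1⟩, z.im, ⟨⟨0, -2 * k⟩, by ext <;> simp⟩, ?_⟩
          rw [Zsqrtd.intCast_dvd]
          simpa using h1
      · refine ⟨1, z.re, one_dvd _, ?_⟩
        rw [Zsqrtd.intCast_dvd]
        simpa using h1
    · refine ⟨⟨1, 1⟩, z.im, ⟨⟨k, -k⟩, by ext <;> simp; ring⟩, ?_⟩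
      rw [Zsqrtd.intCast_dvd]
      simpa using h1
  · refine ⟨⟨1, -1⟩, z.re, ⟨⟨k, k⟩, by ext <;> simp; ring⟩, ?_⟩
    rw [Zsqrtd.intCast_dvd]
    simpa [add_comm] using h1

end Pool.Agent.Lib.MP_19a1ab_nt
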