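import Pool.Agent.Lib.MP_19a1ab_nt.Words
import Pool.Agent.Lib.MP_19a1ab_nt.Arith

/-!
Every matrix of determinant one over the Gaussian integers is a word of bounded length.
-/

namespace Pool.Agent.Lib.MP_19a1ab_nt

/-- The two rows are trivial together, up to `k` more letters. -/
def Eqv (k : ℕ) (a b a' b' : R) : Prop :=
  ∀ n, (Triv n a b → Triv (n + k) a' b') ∧ (Triv n a' b' → Triv (n + k) a b)

theorem drop_zero (x e c : R) : Eqv 9 (1 + x ^ 2 * e) (c * e) (1 + x ^ 2 * e) c := by
  obtain ⟨I, hIdef⟩ : ∃ I : R, I = ⟨0, 1⟩ := ⟨_, rfl⟩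
  have hI : I * I = -1 := by rw [hIdef]; ext <;> simp
  have hA : 1 + x ^ 2 * e = 1 + (-I * x) * (I * x * e) := by linear_combination (x ^ 2 * e) * hI
  intro n
  constructor
  · intro h
    have h1 := h.right (b' := (I * x * e) ^ 2 * c)
      ⟨-(c * e), by linear_combination (x ^ 2 * e ^ 2 * c) * hI⟩
    rw [hA] at h1 ⊢
    exact h1.drop_sq
  · intro h
    rw [hA] at h
    have h1 := h.add_sq
    rw [← hA] at h1
    exact (h1.right (b' := c * e) ⟨c * e, by linear_combination (-(x ^ 2 * e ^ 2 * c)) * hI⟩).mono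
      (by omega)

theorem drop_mod {a x e q : R} (h : q ∣ a - x ^ 2) :
    Eqv 11 (1 + a * e) (q * e) (1 + a * e) q := by
  obtain ⟨t, ht⟩ := h
  intro n
  constructor
  · intro h
    have h1 := h.left (a' := 1 + x ^ 2 * e) ⟨-t, by linear_combination (-e) * ht⟩
    have h2 := (drop_zero x e q _).1 h1
    exact h2.left ⟨t * e, by linear_combination e * ht⟩
  · intro h
    have h1 := h.left (a' := 1 + x ^ 2 * e) ⟨-(t * e), by linear_combination (-e) * ht⟩
    have h2 := (drop_zero x e q _).2 h1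
    exact h2.left ⟨t, by linear_combination e * ht⟩

theorem drop_nice {a e c : R} (hc : IsCoprime (1 + a * e) c)
    (h1 : IsCoprime (1 + a * e).re (1 + a * e).im) (h2 : IsCoprime (1 + a * e).norm 2)
    (h3 : IsCoprime (1 + a * e).norm (4 * (1 + a * e).im ^ 2 + 1)) :
    Eqv 13 (1 + a * e) (c * e) (1 + a * e) c := by
  rcases eq_or_ne a 0 with ha | ha
  · intro n
    obtain ⟨k1, k2⟩ := drop_mod (a := a) (x := 0) (e := e) (q := c) (by simp [ha]) n
    exact ⟨fun h => (k1 h).mono (by omega), fun h => (k2 h).mono (by omega)⟩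
  obtain ⟨c0, hc0⟩ := rat_rep h1 c
  have hN : (1 + a * e).norm ≠ 0 := by
    intro h0
    rw [h0, isCoprime_zero_left] at h2
    exact absurd (Int.isUnit_iff.mp h2) (by decide)
  have hn : a.norm ≠ 0 := by simpa using ha
  have hcop : IsCoprime (1 + a * e).norm a.norm := by
    apply coprime_norm
    · exact ⟨1, -e, by ring⟩
    · have h4 := coprime_cast h3
      rw [Zsqrtd.norm_eq_mul_conj] at h4
      have h5 : ((4 * (1 + a * e).im ^ 2 + 1 : ℤ) : R) =
          (1 + a * e - star a * star e) * (1 + star a * star e - a * e) := by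
        ext
        · rw [Zsqrtd.re_intCast]; simp; ring
        · rw [Zsqrtd.im_intCast]; simp
      rw [h5] at h4
      obtain ⟨u, v, huv⟩ := h4.of_mul_left_left.of_mul_right_left
      exact ⟨u + v, -(v * star e), by linear_combination huv⟩
  have hc0' : IsCoprime c0 (1 + a * e).norm := by
    apply (coprime_norm_int _).symm
    obtain ⟨t, ht⟩ := hc0
    have e1 : (c0 : R) = c + (1 + a * e) * (-t) := by linear_combination -ht
    rw [e1]
    exact hc.add_mul_left_right _
  have h4 : IsCoprime (1 + a * e).norm (4 * a.norm) := by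
    have h5 := h2.mul_right h2
    norm_num at h5
    exact h5.mul_right hcop
  obtain ⟨q, hq, hq1, hq2⟩ := exists_prime_crt (r := -1) hN (mul_ne_zero (by norm_num) hn) h4 hc0'
    isCoprime_one_left.neg_left
  obtain ⟨x, hx⟩ := gauss_sqrt ha hq (by simpa using hq2)
  obtain ⟨s, hs⟩ : (1 + a * e) ∣ (q : R) - c := by
    obtain ⟨t, ht⟩ := hc0
    obtain ⟨k, hk⟩ := hq1
    have hk' : (q : R) - c0 = (1 + a * e) * star (1 + a * e) * k := by
      rw [← Zsqrtd.norm_eq_mul_conj]
      exact_mod_cast hk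
    exact ⟨star (1 + a * e) * k - t, by linear_combination hk' - ht⟩
  intro n
  constructor
  · intro h
    have k1 := h.right (b' := q * e) ⟨s * e, by linear_combination e * hs⟩
    exact ((drop_mod hx _).1 k1).right ⟨-s, by linear_combination -hs⟩
  · intro h
    have k1 := h.right (b' := q) ⟨s, hs⟩
    exact ((drop_mod hx _).2 k1).right ⟨-(s * e), by linear_combination (-e) * hs⟩

theorem drop {a e c : R} (hc : IsCoprime (1 + a * e) c) :
    Eqv 15 (1 + a * e) (c * e) (1 + a * e) c := by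
  rcases eq_or_ne (c * e) 0 with h0 | h0
  · rcases mul_eq_zero.mp h0 with h0 | h0
    · subst h0
      intro n
      rw [zero_mul]
      exact ⟨fun h => h.mono (by omega), fun h => h.mono (by omega)⟩
    · subst h0
      intro n
      exact ⟨fun _ => (triv_unit (v := 1) (by ring) _).mono (by omega),
        fun _ => (triv_unit (v := 1) (by ring) _).mono (by omega)⟩
  have he : IsCoprime (1 + a * e) e := ⟨1, -a, by ring⟩
  obtain ⟨a1, ⟨t, ht⟩, h1, h2, h3⟩ := nice (hc.mul_right he) h0
  obtain rfl : a1 = 1 + (a + c * t) * e := by linear_combination ht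
  have hc1 : IsCoprime (1 + (a + c * t) * e) c := by
    have e1 : 1 + (a + c * t) * e = 1 + a * e + c * (t * e) := by ring
    rw [e1]
    exact hc.add_mul_left_left _
  intro n
  constructor
  · intro h
    have k1 := h.left (a' := 1 + (a + c * t) * e) ⟨t, by ring⟩
    exact ((drop_nice hc1 h1 h2 h3 _).1 k1).left ⟨-(t * e), by ring⟩
  · intro h
    have k1 := h.left (a' := 1 + (a + c * t) * e) ⟨t * e, by ring⟩
    exact ((drop_nice hc1 h1 h2 h3 _).2 k1).left ⟨-t, by ring⟩

theorem drop_neg {a e c : R} (hc : IsCoprime (-1 + a * e) c) :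
    Eqv 23 (-1 + a * e) (c * e) (-1 + a * e) c := by
  have hc1 : IsCoprime (1 + (-a) * e) (-c) := by
    obtain ⟨u, v, huv⟩ := hc
    exact ⟨-u, -v, by linear_combination huv⟩
  intro n
  constructor
  · intro h
    have k1 : Triv (n + 4) (1 + (-a) * e) (-c * e) := h.neg.cast (by ring) (by ring)
    exact ((drop hc1 _).1 k1).neg.cast (by ring) (by ring)
  · intro h
    have k1 : Triv (n + 4) (1 + (-a) * e) (-c) := h.neg.cast (by ring) (by ring)
    exact ((drop hc1 _).2 k1).neg.cast (by ring) (by ring)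

theorem Triv.mul {n m : ℕ} {a a' b : R} (h : Triv n a b) (h' : Triv m a' b) :
    Triv (n + m + 25) (a * a') b := by
  intro c d hd
  have k1 := (h c (a' * d) (by linear_combination hd)).mul
    (h' c (a * d) (by linear_combination hd))
  have k2 := k1.triv (by linear_combination (a * a' * d - b * c + 1) * hd)
  have k3 : Triv (n + m + 1) (-1 + a' * (a * (1 + d))) (b * (a * (1 + d))) :=
    k2.cast (by linear_combination -hd) (by ring)
  have hc : IsCoprime (-1 + a' * (a * (1 + d))) b :=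
    ⟨d, -(c * (d + 1)), by linear_combination (d + 1) * hd⟩
  have k4 := ((drop_neg hc _).1 k3).left (a' := a * a') ⟨-c, by linear_combination -hd⟩
  exact k4 c d hd

theorem pow_fg {a b c d : R} (hd : a * d - b * c = 1) (m : ℕ) :
    ∃ f g : R, f ^ 2 + f * g * (a + d) + g ^ 2 = 1 ∧ b * c ∣ f + g * a - a ^ m := by
  induction m with
  | zero => exact ⟨1, 0, by ring, by simp⟩
  | succ m ih =>
    obtain ⟨f, g, h1, t, ht⟩ := ih
    exact ⟨-g, f + (a + d) * g, by linear_combination h1,
      ⟨a * t + g, by linear_combination a * ht + g * hd⟩⟩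

theorem pow_W {n : ℕ} {a b c d f g z : R} (hd : a * d - b * c = 1)
    (hfg : f ^ 2 + f * g * (a + d) + g ^ 2 = 1) (hz : b ∣ f + g * a - z) (h : Triv n z b) :
    W (n + 39) (f + g * a) (g * b) (g * c) (f + g * d) := by
  have hdet : (f + g * a) * (f + g * d) - (g * b) * (g * c) = 1 := by
    linear_combination hfg + g ^ 2 * hd
  have hg : g ∣ (f - 1) * (f + 1) := ⟨-(f * (a + d) + g), by linear_combination hfg⟩
  obtain ⟨g1, g2, ⟨s1, hs1⟩, ⟨s2, hs2⟩, rfl⟩ := exists_dvd_and_dvd_of_dvd_mul hg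
  have e1 : f + g1 * g2 * a = 1 + (s1 + g2 * a) * g1 := by linear_combination hs1
  have e2 : f + g1 * g2 * a = -1 + (s2 + g1 * a) * g2 := by linear_combination hs2
  have c1 : IsCoprime (f + g1 * g2 * a) b :=
    ⟨f + g1 * g2 * d, -(g1 * g2 * (g1 * g2 * c)), by linear_combination hdet⟩
  have c2 : IsCoprime (f + g1 * g2 * a) (b * g1) :=
    ⟨f + g1 * g2 * d, -(g2 * (g1 * g2 * c)), by linear_combination hdet⟩
  have k1 := h.left hz
  rw [e1] at k1 c1
  have k2 := (drop c1 _).2 k1
  rw [← e1, e2] at k2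
  rw [e2] at c2
  have k3 := (drop_neg c2 _).2 k2
  rw [← e2] at k3
  exact (k3.cast rfl (by ring) : Triv (n + 39) _ (g1 * g2 * b)) _ _ hdet

theorem pow_step {n n' m : ℕ} {a b c d : R} (hd : a * d - b * c = 1) (h : Triv n (a ^ m) b)
    (h' : Triv n' (a ^ (m + 1)) c) : Triv (n + n' + 85) a b := by
  obtain ⟨f, g, hfg, t, ht⟩ := pow_fg hd m
  have hdet : (f + g * a) * (f + g * d) - (g * b) * (g * c) = 1 := by
    linear_combination hfg + g ^ 2 * hd
  have k1 := pow_W hd hfg ⟨c * t, by linear_combination ht⟩ h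
  have k2 := (pow_W (a := a) (b := c) (c := b) (d := d) (f := -g) (g := f + (a + d) * g)
    (by linear_combination hd) (by linear_combination hfg)
    ⟨b * (a * t + g), by linear_combination a * ht + g * hd⟩ h').tr
  have k3 : W (n' + 39 + 6) (a * (f + g * a) + b * (g * c)) (a * (g * b) + b * (f + g * d))
      (c * (f + g * a) + d * (g * c)) (c * (g * b) + d * (f + g * d)) :=
    k2.cast (by linear_combination g * hd) (by ring) (by ring) (by linear_combination g * hd)
  have k4 : W (n' + 39 + 6 + (n + 39)) a b c d := (k3.mul k1.adj).cast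
    (by linear_combination a * hdet) (by linear_combination b * hdet)
    (by linear_combination c * hdet) (by linear_combination d * hdet)
  exact (k4.triv hd).mono (by omega)

theorem int_left {n : ℕ} {x y p : ℤ} (h : Triv n (x : R) (p : R)) (hp : p ∣ y - x) :
    Triv (n + 1) (y : R) (p : R) := by
  obtain ⟨t, ht⟩ := hp
  exact h.left ⟨t, by exact_mod_cast ht⟩

theorem rat_odd {x y : ℤ} (hx : Odd x) (h : IsCoprime x y) : Triv 103 (x : R) (y : R) := by
  obtain ⟨j, hj⟩ := hx
  have hx0 : x ≠ 0 := by omega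
  obtain ⟨p, hp, k0, hk0⟩ := exists_prime hx0 h.symm
  have hxp : IsCoprime x (p : ℤ) := by
    have e : (p : ℤ) = y + x * k0 := by linear_combination hk0
    rw [e]
    exact h.add_mul_left_right _
  obtain ⟨l, hl⟩ : ∃ l : ℕ, p = l + 1 := ⟨p - 1, by have := hp.pos; omega⟩
  have hl0 : 0 < l := by have := hp.two_le; omega
  have hl' : (p : ℤ) = l + 1 := by exact_mod_cast hl
  obtain ⟨d, c', hdc⟩ := id hxp
  obtain ⟨c, rfl⟩ : ∃ c, c' = -c := ⟨-c', by ring⟩
  have e0 : -1 + 2 * l * (c * j) = c + x * (l * c - d) := by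
    linear_combination hdc + c * hl' - l * c * hj
  have hcop : IsCoprime (-1 + 2 * l * (c * j)) (2 * l * x) := by
    apply IsCoprime.mul_right
    · exact ⟨-1, c * j, by ring⟩
    · rw [e0]
      exact IsCoprime.add_mul_left_left ⟨-(p : ℤ), d, by linear_combination hdc⟩ _
  obtain ⟨r, hr, k, hk⟩ := exists_prime (by positivity) hcop
  have hK : 0 < c * j + x * k := by
    have h1 : (0 : ℤ) < 2 * l * (c * j + x * k) := by
      have : (0 : ℤ) ≤ r := by positivity
      linarith
    exact (mul_pos_iff_of_pos_left (by positivity)).mp h1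
  obtain ⟨K, hK'⟩ := Int.eq_ofNat_of_zero_le hK.le
  have hK0 : 0 < K := by omega
  obtain ⟨m, hm⟩ : ∃ m, l * K = m + 1 := ⟨l * K - 1, by have := Nat.mul_pos hl0 hK0; omega⟩
  have hm' : (l : ℤ) * K = m + 1 := by exact_mod_cast hm
  have hrm : r = 2 * m + 1 := by
    have : (r : ℤ) = 2 * m + 1 := by linear_combination hk + 2 * l * hK' + 2 * hm'
    exact_mod_cast this
  have hdet : x * (d + p * (l * c - d + 2 * l * k)) - r * p = 1 := by
    linear_combination hdc - p * hk - p * e0
  have hxr : IsCoprime x (r : ℤ) :=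
    ⟨d + p * (l * c - d + 2 * l * k), -p, by linear_combination hdet⟩
  have f1 := (Int.ModEq.pow_card_sub_one_eq_one hp hxp).symm.dvd
  have f2 := (Int.ModEq.pow_card_sub_one_eq_one hr hxr).symm.dvd
  have t1 : Triv 5 ((x ^ (m + 1) : ℤ) : R) ((p : ℤ) : R) := by
    refine int_left (x := 1) (triv_unit (v := 1) (by simp) _) ?_
    have e1 : p - 1 = l := by omega
    rw [e1] at f1
    rw [← hm, pow_mul]
    have h2 := sub_dvd_pow_sub_pow (x ^ l) 1 K
    rw [one_pow] at h2
    exact f1.trans h2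
  have t2 : Triv 5 ((x ^ m : ℤ) : R) ((r : ℤ) : R) := by
    have e1 : r - 1 = 2 * m := by omega
    have e2 : x ^ (2 * m) - 1 = (x ^ m - 1) * (x ^ m - (-1)) := by ring
    rw [e1, e2] at f2
    rcases (Nat.prime_iff_prime_int.mp hr).dvd_or_dvd f2 with f3 | f3
    · exact int_left (x := 1) (triv_unit (v := 1) (by simp) _) f3
    · exact int_left (x := -1) (triv_unit (v := -1) (by simp) _) f3
  rw [Int.cast_pow] at t1 t2
  have hdet' : (x : R) * ((d + p * (l * c - d + 2 * l * k) : ℤ) : R) -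
      ((r : ℤ) : R) * ((p : ℤ) : R) = 1 := by exact_mod_cast hdet
  have t3 := (pow_step hdet' t2 t1).tr hdet'
  refine t3.right ⟨-k0, ?_⟩
  have e : y - p = x * (-k0) := by linear_combination -hk0
  exact_mod_cast e

theorem rat_row (x y : ℤ) : Triv 106 (x : R) (y : R) := by
  intro c d hd
  have h : IsCoprime x y := coprime_int ⟨d, -c, by linear_combination hd⟩
  rcases Int.even_or_odd x with hx | hx
  · have hy : Odd y := by
      rcases Int.even_or_odd y with hy | hy
      · exfalso
        have h2 := h.isUnit_of_dvd' hx.two_dvd hy.two_dvd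
        exact absurd (Int.isUnit_iff.mp h2) (by decide)
      · exact hy
    have t1 := (rat_odd hy h.symm.neg_right).swap
    exact (t1.cast (by simp) rfl : Triv 106 (x : R) (y : R)) c d hd
  · exact ((rat_odd hx h).mono (by omega)) c d hd

theorem quart {z : R} {n : ℤ} {q : ℕ} (hq : q.Prime) (h4 : 4 ∣ q + 1)
    (h : (q : R) ∣ z ^ 4 - n) : Triv 140 z q := by
  obtain ⟨u, r, hu, hr⟩ := fourth hq h4 h
  have t1 : Triv 7 u 1 := (triv_unit (u := 1) (v := 1) (by ring) (-u)).swap.cast (by ring) rfl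
  have t2 := rat_row r q
  rw [Int.cast_natCast] at t2
  exact ((t1.right hu).mul t2).left hr

theorem nice_row {a b : R} (hc : IsCoprime a b) (h1 : IsCoprime a.re a.im)
    (h2 : IsCoprime a.norm 2) : Triv 366 a b := by
  obtain ⟨b0, hb0⟩ := rat_rep h1 b
  have hN : a.norm ≠ 0 := by
    intro h0
    rw [h0, isCoprime_zero_left] at h2
    exact absurd (Int.isUnit_iff.mp h2) (by decide)
  have hb0' : IsCoprime b0 a.norm := by
    apply (coprime_norm_int _).symm
    obtain ⟨t, ht⟩ := hb0
    have e1 : (b0 : R) = b + a * (-t) := by linear_combination -ht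
    rw [e1]
    exact hc.add_mul_left_right _
  have h8 : IsCoprime a.norm 8 := by
    have h5 := (h2.mul_right h2).mul_right h2
    norm_num at h5
    exact h5
  obtain ⟨q, hq, ⟨k0, hk0⟩, hq8⟩ := exists_prime_crt (r := 3) hN (by norm_num) h8 hb0'
    ⟨3, -1, by norm_num⟩
  obtain ⟨j, hj⟩ : ∃ j : ℕ, q = 8 * j + 3 := ⟨q / 8, by omega⟩
  have hj' : (q : ℤ) = 8 * j + 3 := by exact_mod_cast hj
  have hNq : IsCoprime a.norm (q : ℤ) := by
    have e : (q : ℤ) = b0 + a.norm * k0 := by linear_combination hk0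
    rw [e]
    exact hb0'.symm.add_mul_left_right _
  obtain ⟨D, c', hdc⟩ := hNq
  obtain ⟨c, rfl⟩ : ∃ c, c' = -c := ⟨-c', by ring⟩
  obtain ⟨i, hi⟩ : ∃ i, a.norm = 2 * i + 1 := by
    rcases Int.even_or_odd' a.norm with ⟨i, hi | hi⟩
    · exfalso
      have h3 := h2.isUnit_of_dvd' ⟨i, hi⟩ dvd_rfl
      exact absurd (Int.isUnit_iff.mp h3) (by decide)
    · exact ⟨i, hi⟩
  have e0 : 1 + 2 * (2 * j + 1) * (2 * c + a.norm) = c + a.norm * (D + 2 * (2 * j + 1)) := by
    linear_combination -hdc - c * hj'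
  have hcop : IsCoprime (1 + 2 * (2 * j + 1) * (2 * c + a.norm))
      (2 * (2 * (2 * j + 1)) * a.norm) := by
    refine IsCoprime.mul_right (IsCoprime.mul_right ?_ ?_) ?_
    · exact ⟨1, -((2 * j + 1) * (2 * c + a.norm)), by ring⟩
    · exact ⟨1, -(2 * c + a.norm), by ring⟩
    · rw [e0]
      exact IsCoprime.add_mul_left_left ⟨-(q : ℤ), D, by linear_combination hdc⟩ _
  obtain ⟨r, hr, k, hk⟩ := exists_prime (by positivity) hcop
  have hK : 0 < 2 * c + a.norm + 2 * a.norm * k := by
    have h3 : (0 : ℤ) < 2 * (2 * j + 1) * (2 * c + a.norm + 2 * a.norm * k) := by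
      have : (2 : ℤ) ≤ r := by exact_mod_cast hr.two_le
      linarith
    exact (mul_pos_iff_of_pos_left (by positivity)).mp h3
  obtain ⟨K, hK'⟩ := Int.eq_ofNat_of_zero_le hK.le
  have hrK : r + 1 = 2 * ((2 * j + 1) * K + 1) := by
    have : (r : ℤ) + 1 = 2 * ((2 * j + 1) * K + 1) := by
      linear_combination hk + 2 * (2 * j + 1) * hK'
    exact_mod_cast this
  have hr4 : 4 ∣ r + 1 := by
    have h3 : (4 : ℤ) ∣ r + 1 :=
      ⟨(2 * j + 1) * (c + i + a.norm * k) + j + 1, by linear_combination hk + 2 * (2 * j + 1) * hi⟩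
    exact_mod_cast h3
  have hq4 : 4 ∣ q + 1 := by omega
  have t1 : Triv 140 (a ^ ((2 * j + 1) * K)) q := by
    apply quart (n := a.norm ^ K) hq hq4
    have e1 : (a ^ ((2 * j + 1) * K)) ^ 4 = (a ^ (q + 1)) ^ K := by
      rw [← pow_mul, ← pow_mul, hj]
      congr 1
      ring
    rw [e1, Int.cast_pow]
    exact (frob a hq hq4).trans (sub_dvd_pow_sub_pow _ _ K)
  have t2 : Triv 140 (a ^ ((2 * j + 1) * K + 1)) r := by
    apply quart (n := a.norm ^ 2) hr hr4
    have e1 : (a ^ ((2 * j + 1) * K + 1)) ^ 4 = (a ^ (r + 1)) ^ 2 := by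
      rw [← pow_mul, ← pow_mul, hrK]
      congr 1
      ring
    rw [e1, Int.cast_pow]
    exact (frob a hr hr4).trans (sub_dvd_pow_sub_pow _ _ 2)
  have hdet : a.norm * (D + q * (D + 2 * (2 * j + 1) + 4 * (2 * j + 1) * k)) - q * r = 1 := by
    linear_combination hdc - q * hk - q * e0
  have hdet' : a * (star a * ((D + q * (D + 2 * (2 * j + 1) + 4 * (2 * j + 1) * k) : ℤ) : R)) -
      (q : R) * (r : R) = 1 := by
    rw [← mul_assoc, ← Zsqrtd.norm_eq_mul_conj]
    exact_mod_cast hdet
  refine (pow_step hdet' t1 t2).right ?_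
  obtain ⟨t, ht⟩ := hb0
  have hk0' : (q : R) - b0 = a * star a * k0 := by
    rw [← Zsqrtd.norm_eq_mul_conj]
    exact_mod_cast hk0
  exact ⟨t - star a * k0, by linear_combination ht - hk0'⟩

theorem all_W {a b c d : R} (hd : a * d - b * c = 1) : W 367 a b c d := by
  rcases eq_or_ne b 0 with hb | hb
  · subst hb
    exact ((triv_unit (v := d) (by linear_combination hd) 0).mono (by omega)) c d hd
  have hc : IsCoprime a b := ⟨d, -c, by linear_combination hd⟩
  obtain ⟨a1, ⟨t, ht⟩, h1, h2, _⟩ := nice hc hb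
  have hc1 : IsCoprime a1 b := by
    have e1 : a1 = a + b * t := by linear_combination ht
    rw [e1]
    exact hc.add_mul_left_left _
  exact ((nice_row hc1 h1 h2).left ⟨-t, by linear_combination -ht⟩) c d hd

end Pool.Agent.Lib.MP_19a1ab_nt
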