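import Pool.Agent.Lib.MP_19a1ab_nt.Main

/-!
The polynomial parametrization of the determinant one matrices over the Gaussian integers in
integer coordinates, and the reduction of positive Hermitian matrices of determinant one.
-/

namespace Pool.Agent.Lib.MP_19a1ab_nt

open MvPolynomial

/-- Functions to the Gaussian integers whose real and imaginary parts are integer polynomials. -/
def polyS (σ : Type) : Subring ((σ → ℤ) → R) where
  carrier := {f | ∃ P Q : MvPolynomial σ ℤ, ∀ u, f u = ⟨eval u P, eval u Q⟩}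
  mul_mem' := by
    rintro f g ⟨P, Q, h⟩ ⟨P', Q', h'⟩
    refine ⟨P * P' - Q * Q', P * Q' + Q * P', fun u => ?_⟩
    rw [Pi.mul_apply, h, h']
    ext
    · simp; ring
    · simp
  one_mem' := ⟨1, 0, fun u => by ext <;> simp⟩
  add_mem' := by
    rintro f g ⟨P, Q, h⟩ ⟨P', Q', h'⟩
    refine ⟨P + P', Q + Q', fun u => ?_⟩
    rw [Pi.add_apply, h, h']
    ext <;> simp
  zero_mem' := ⟨0, 0, fun u => by ext <;> simp⟩
  neg_mem' := by
    rintro f ⟨P, Q, h⟩
    refine ⟨-P, -Q, fun u => ?_⟩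
    rw [Pi.neg_apply, h]
    ext <;> simp

theorem param_aux (N : ℕ)
    (hN : ∀ a b c d : R, a * d - b * c = 1 → ∃ p : Fin N → Fin 12 → R, !![a, b; c, d] = blks N p) :
    ∃ (k : ℕ) (P Q : Fin 2 → Fin 2 → MvPolynomial (Fin k) ℤ), ∀ a b c d : R,
      a * d - b * c = 1 ↔ ∃ u : Fin k → ℤ, a = ⟨eval u (P 0 0), eval u (Q 0 0)⟩ ∧
        b = ⟨eval u (P 0 1), eval u (Q 0 1)⟩ ∧ c = ⟨eval u (P 1 0), eval u (Q 1 0)⟩ ∧
        d = ⟨eval u (P 1 1), eval u (Q 1 1)⟩ := by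
  let e := Fintype.equivFin (Fin N × Fin 12 × Bool)
  let k := Fintype.card (Fin N × Fin 12 × Bool)
  let g : Fin N → Fin 12 → polyS (Fin k) := fun i j =>
    ⟨fun u => ⟨u (e (i, j, true)), u (e (i, j, false))⟩, X (e (i, j, true)), X (e (i, j, false)),
      fun u => by simp⟩
  let ev : (Fin k → ℤ) → polyS (Fin k) →+* R := fun u =>
    (Pi.evalRingHom (fun _ => R) u).comp (polyS (Fin k)).subtype
  have hPQ : ∀ i j, ∃ P Q : MvPolynomial (Fin k) ℤ, ∀ u,
      ev u (blks N g i j) = ⟨eval u P, eval u Q⟩ := fun i j => (blks N g i j).2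
  choose P Q hPQ using hPQ
  have key : ∀ u i j, blks N (fun i j => ev u (g i j)) i j =
      ⟨eval u (P i j), eval u (Q i j)⟩ := by
    intro u i j
    rw [← map_blks, ← hPQ]
    rfl
  refine ⟨k, P, Q, fun a b c d => ⟨fun hd => ?_, ?_⟩⟩
  · obtain ⟨p, hp⟩ := hN a b c d hd
    let u : Fin k → ℤ := fun s =>
      if (e.symm s).2.2 then (p (e.symm s).1 (e.symm s).2.1).re
      else (p (e.symm s).1 (e.symm s).2.1).im
    have hu : (fun i j => ev u (g i j)) = p := by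
      funext i j
      change (⟨u (e (i, j, true)), u (e (i, j, false))⟩ : R) = p i j
      ext <;> simp [u]
    refine ⟨u, ?_, ?_, ?_, ?_⟩ <;> rw [← key, hu, ← hp] <;> rfl
  · rintro ⟨u, ha, hb, hc, hd⟩
    have h1 := blks_det N (fun i j => ev u (g i j))
    rw [Matrix.det_fin_two, key, key, key, key] at h1
    rw [ha, hb, hc, hd]
    exact h1

theorem param : ∃ (k : ℕ) (P Q : Fin 2 → Fin 2 → MvPolynomial (Fin k) ℤ), ∀ a b c d : R,
      a * d - b * c = 1 ↔ ∃ u : Fin k → ℤ, a = ⟨eval u (P 0 0), eval u (Q 0 0)⟩ ∧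
        b = ⟨eval u (P 0 1), eval u (Q 0 1)⟩ ∧ c = ⟨eval u (P 1 0), eval u (Q 1 0)⟩ ∧
        d = ⟨eval u (P 1 1), eval u (Q 1 1)⟩ :=
  param_aux 367 (fun _ _ _ _ hd => (all_W hd).exists_blks)

theorem balanced (x z : ℤ) (hz : 0 < z) : ∃ k : ℤ, 4 * (x - k * z) ^ 2 ≤ z ^ 2 := by
  refine ⟨(2 * x + z) / (2 * z), ?_⟩
  have h1 := Int.emod_nonneg (2 * x + z) (by omega : 2 * z ≠ 0)
  have h2 := Int.emod_lt_of_pos (2 * x + z) (by omega : 0 < 2 * z)
  have h3 := Int.mul_ediv_add_emod (2 * x + z) (2 * z)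
  have h4 : 2 * (x - (2 * x + z) / (2 * z) * z) = (2 * x + z) % (2 * z) - z := by
    linear_combination -h3
  nlinarith

/-- The entries of the Hermitian matrix `g g*`, in integer coordinates. -/
def Herm (x y z w : ℤ) : Prop :=
  ∃ a b c d : R, a * d - b * c = 1 ∧ z = a.re ^ 2 + a.im ^ 2 + b.re ^ 2 + b.im ^ 2 ∧
    w = c.re ^ 2 + c.im ^ 2 + d.re ^ 2 + d.im ^ 2 ∧
    x = a.re * c.re + a.im * c.im + b.re * d.re + b.im * d.im ∧
    y = a.im * c.re - a.re * c.im + b.im * d.re - b.re * d.im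

theorem Herm.shift {x y z w : ℤ} (k l : ℤ) (h : Herm x y z w) :
    Herm (x + k * z) (y + l * z) z (w + 2 * (k * x + l * y) + (k ^ 2 + l ^ 2) * z) := by
  obtain ⟨a, b, c, d, hd, hz, hw, hx, hy⟩ := h
  refine ⟨a, b, c + ⟨k, -l⟩ * a, d + ⟨k, -l⟩ * b, by linear_combination hd, hz, ?_, ?_, ?_⟩
  · rw [hz, hw, hx, hy]; simp; ring
  · rw [hz, hx]; simp; ring
  · rw [hz, hy]; simp; ring

theorem Herm.swap {x y z w : ℤ} (h : Herm x y z w) : Herm (-x) y w z := by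
  obtain ⟨a, b, c, d, hd, hz, hw, hx, hy⟩ := h
  refine ⟨c, d, -a, -b, by linear_combination hd, hw, ?_, ?_, ?_⟩
  · rw [hz]; simp
  · rw [hx]; simp; ring
  · rw [hy]; simp; ring

theorem herm_of_pos (n : ℕ) : ∀ x y z w : ℤ, z = n → 0 < z → z * w - x ^ 2 - y ^ 2 = 1 →
    Herm x y z w := by
  induction n using Nat.strong_induction_on with
  | _ n ih =>
    intro x y z w hz hpos h
    obtain ⟨k, hk⟩ := balanced x z hpos
    obtain ⟨l, hl⟩ := balanced y z hpos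
    obtain ⟨x', rfl⟩ : ∃ x', x = x' + k * z := ⟨x - k * z, by ring⟩
    obtain ⟨y', rfl⟩ : ∃ y', y = y' + l * z := ⟨y - l * z, by ring⟩
    obtain ⟨w', rfl⟩ : ∃ w', w = w' + 2 * (k * x' + l * y') + (k ^ 2 + l ^ 2) * z :=
      ⟨w - (2 * (k * x' + l * y') + (k ^ 2 + l ^ 2) * z), by ring⟩
    rw [add_sub_cancel_right] at hk hl
    have h' : z * w' - x' ^ 2 - y' ^ 2 = 1 := by linear_combination h
    apply Herm.shift
    rcases eq_or_lt_of_le (show 1 ≤ z by omega) with h1 | h1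
    · subst h1
      have hx : x' = 0 := by nlinarith
      have hy : y' = 0 := by nlinarith
      subst hx hy
      have hw : w' = 1 := by linear_combination h'
      subst hw
      exact ⟨1, 0, 0, 1, by ring, by simp, by simp, by simp, by simp⟩
    · have hw0 : 0 < w' := by
        have h2 : 0 < z * w' := by nlinarith
        exact (mul_pos_iff_of_pos_left hpos).mp h2
      have hw1 : w' < z := by
        by_contra hcon
        have h2 : z * z ≤ z * w' := mul_le_mul_of_nonneg_left (not_lt.mp hcon) hpos.le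
        nlinarith
      have h3 := ih w'.toNat (by omega) (-x') y' w' z (by omega) hw0 (by linear_combination h')
      have h4 := h3.swap
      rwa [neg_neg] at h4

theorem Herm.eq {x y z w : ℤ} (h : Herm x y z w) : z * w - x ^ 2 - y ^ 2 = 1 := by
  obtain ⟨a, b, c, d, hd, hz, hw, hx, hy⟩ := h
  have h1 := congrArg Zsqrtd.re hd
  have h2 := congrArg Zsqrtd.im hd
  simp only [Zsqrtd.re_sub, Zsqrtd.re_mul, Zsqrtd.re_one, Zsqrtd.im_sub, Zsqrtd.im_mul,
    Zsqrtd.im_one] at h1 h2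
  rw [hz, hw, hx, hy]
  linear_combination
    (a.re * d.re - a.im * d.im - (b.re * c.re - b.im * c.im) + 1) * h1 +
      (a.re * d.im + a.im * d.re - (b.re * c.im + b.im * c.re)) * h2

theorem herm_param : ∃ (k : ℕ) (P : Fin 4 → MvPolynomial (Fin k) ℤ), ∀ x y z w : ℤ,
    Herm x y z w ↔ ∃ u : Fin k → ℤ, x = eval u (P 0) ∧ y = eval u (P 1) ∧ z = eval u (P 2) ∧
      w = eval u (P 3) := by
  obtain ⟨k, P, Q, h⟩ := param
  refine ⟨k, ![P 0 0 * P 1 0 + Q 0 0 * Q 1 0 + P 0 1 * P 1 1 + Q 0 1 * Q 1 1,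
    Q 0 0 * P 1 0 - P 0 0 * Q 1 0 + Q 0 1 * P 1 1 - P 0 1 * Q 1 1,
    P 0 0 ^ 2 + Q 0 0 ^ 2 + P 0 1 ^ 2 + Q 0 1 ^ 2,
    P 1 0 ^ 2 + Q 1 0 ^ 2 + P 1 1 ^ 2 + Q 1 1 ^ 2], fun x y z w => ⟨?_, ?_⟩⟩
  · rintro ⟨a, b, c, d, hd, hz, hw, hx, hy⟩
    obtain ⟨u, rfl, rfl, rfl, rfl⟩ := (h a b c d).1 hd
    exact ⟨u, by simpa using hx, by simpa using hy, by simpa using hz, by simpa using hw⟩
  · rintro ⟨u, hx, hy, hz, hw⟩
    exact ⟨_, _, _, _, (h _ _ _ _).2 ⟨u, rfl, rfl, rfl, rfl⟩, by simpa using hz,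
      by simpa using hw, by simpa using hx, by simpa using hy⟩

end Pool.Agent.Lib.MP_19a1ab_nt
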