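import Mathlib

/-!
Bounded words in elementary matrices and in the values of one five-parameter polynomial matrix,
over the Gaussian integers, and the elementary moves on first rows.
-/

namespace Pool.Agent.Lib.MP_19a1ab_nt

section Generic

variable {A : Type} [CommRing A]

def dl (a d e y z : A) : A := a + d + e * (a * d - y * z)

def k11 (P Q S T : A) : A := -P ^ 2 + P ^ 2 * Q * S - P ^ 3 * T

def k12 (P Q S T : A) : A := -1 + Q * S - P * T - P * S + P * Q * S ^ 2 - P ^ 2 * S * T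

def k21 (P Q S T : A) : A := 1 - Q * S + P * T - P * S + P * Q * S ^ 2 - P ^ 2 * S * T

def k22 (P Q S T : A) : A := -S ^ 2 + Q * S ^ 3 - P * S ^ 2 * T

def f11 (a d e y z : A) : A :=
  (1 + a * e) ^ 2 + (y * e) ^ 2 + e * dl a d e y z * k11 (1 + a * e) (y * e) (z * e) (1 + d * e)

def f12 (a d e y z : A) : A :=
  e * ((1 + a * e) * (z * e) + (y * e) * (1 + d * e)) +
    e * (e * dl a d e y z) * k12 (1 + a * e) (y * e) (z * e) (1 + d * e)

def f21 (a d e y z : A) : A :=
  (1 + a * e) * z + y * (1 + d * e) + dl a d e y z * k21 (1 + a * e) (y * e) (z * e) (1 + d * e)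

def f22 (a d e y z : A) : A :=
  (z * e) ^ 2 + (1 + d * e) ^ 2 + e * dl a d e y z * k22 (1 + a * e) (y * e) (z * e) (1 + d * e)

theorem ident (P Q S T : A) :
    (P ^ 2 + Q ^ 2 + (P * T - Q * S - 1) * k11 P Q S T) *
        (S ^ 2 + T ^ 2 + (P * T - Q * S - 1) * k22 P Q S T) -
      (P * S + Q * T + (P * T - Q * S - 1) * k12 P Q S T) *
        (P * S + Q * T + (P * T - Q * S - 1) * k21 P Q S T) = 1 := by
  unfold k11 k12 k21 k22
  ring

theorem f_det (a d e y z : A) :
    f11 a d e y z * f22 a d e y z - f12 a d e y z * f21 a d e y z = 1 := by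
  have h := ident (1 + a * e) (y * e) (z * e) (1 + d * e)
  have hd : (1 + a * e) * (1 + d * e) - (y * e) * (z * e) - 1 = e * dl a d e y z := by
    unfold dl; ring
  rw [hd] at h
  unfold f11 f12 f21 f22
  linear_combination h

/-- One block: an upper elementary matrix, a lower elementary matrix, a value of the
five-parameter matrix and the inverse of another value. -/
def blk (p : Fin 12 → A) : Matrix (Fin 2) (Fin 2) A :=
  !![1, p 0; 0, 1] * !![1, 0; p 1, 1] *
    !![f11 (p 2) (p 3) (p 4) (p 5) (p 6), f12 (p 2) (p 3) (p 4) (p 5) (p 6);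
      f21 (p 2) (p 3) (p 4) (p 5) (p 6), f22 (p 2) (p 3) (p 4) (p 5) (p 6)] *
    !![f22 (p 7) (p 8) (p 9) (p 10) (p 11), -f12 (p 7) (p 8) (p 9) (p 10) (p 11);
      -f21 (p 7) (p 8) (p 9) (p 10) (p 11), f11 (p 7) (p 8) (p 9) (p 10) (p 11)]

theorem blk_det (p : Fin 12 → A) : (blk p).det = 1 := by
  unfold blk
  simp only [Matrix.det_mul, Matrix.det_fin_two_of]
  have h1 := f_det (p 2) (p 3) (p 4) (p 5) (p 6)
  have h2 := f_det (p 7) (p 8) (p 9) (p 10) (p 11)
  rw [h1]
  linear_combination h2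

/-- The product of `n` blocks. -/
def blks : (n : ℕ) → (Fin n → Fin 12 → A) → Matrix (Fin 2) (Fin 2) A
  | 0, _ => 1
  | n + 1, p => blk (p 0) * blks n (fun i => p i.succ)

theorem blks_det : ∀ (n : ℕ) (p : Fin n → Fin 12 → A), (blks n p).det = 1
  | 0, _ => by simp [blks]
  | n + 1, p => by rw [blks, Matrix.det_mul, blk_det, blks_det n, one_mul]

theorem f_zero : f11 (0 : A) 0 0 0 0 = 1 ∧ f12 (0 : A) 0 0 0 0 = 0 ∧ f21 (0 : A) 0 0 0 0 = 0 ∧
    f22 (0 : A) 0 0 0 0 = 1 := by
  simp [f11, f12, f21, f22, dl]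

variable {B : Type} [CommRing B]

theorem map_f (φ : A →+* B) (a d e y z : A) :
    φ (f11 a d e y z) = f11 (φ a) (φ d) (φ e) (φ y) (φ z) ∧
    φ (f12 a d e y z) = f12 (φ a) (φ d) (φ e) (φ y) (φ z) ∧
    φ (f21 a d e y z) = f21 (φ a) (φ d) (φ e) (φ y) (φ z) ∧
    φ (f22 a d e y z) = f22 (φ a) (φ d) (φ e) (φ y) (φ z) := by
  refine ⟨?_, ?_, ?_, ?_⟩ <;>
    simp only [f11, f12, f21, f22, dl, k11, k12, k21, k22, map_add, map_sub, map_mul, map_pow,
      map_neg, map_one]

theorem map_two (φ : A →+* B) (a b c d : A) :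
    φ.mapMatrix !![a, b; c, d] = !![φ a, φ b; φ c, φ d] := by
  ext i j
  fin_cases i <;> fin_cases j <;> simp

theorem map_blk (φ : A →+* B) (p : Fin 12 → A) :
    φ.mapMatrix (blk p) = blk (fun i => φ (p i)) := by
  unfold blk
  obtain ⟨h1, h2, h3, h4⟩ := map_f φ (p 2) (p 3) (p 4) (p 5) (p 6)
  obtain ⟨h5, h6, h7, h8⟩ := map_f φ (p 7) (p 8) (p 9) (p 10) (p 11)
  simp only [map_mul, map_two, map_one, map_zero, map_neg, h1, h2, h3, h4, h5, h6, h7, h8]

theorem map_blks (φ : A →+* B) : ∀ (n : ℕ) (p : Fin n → Fin 12 → A),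
    φ.mapMatrix (blks n p) = blks n (fun i j => φ (p i j))
  | 0, _ => by simp [blks]
  | n + 1, p => by rw [blks, blks, map_mul, map_blk, map_blks φ n]

end Generic

abbrev R := GaussianInt

/-- The basic matrices, as quadruples of entries. -/
def Basic (a b c d : R) : Prop :=
  (a = 1 ∧ c = 0 ∧ d = 1) ∨ (a = 1 ∧ b = 0 ∧ d = 1) ∨
    (∃ s t e y z, a = f11 s t e y z ∧ b = f12 s t e y z ∧ c = f21 s t e y z ∧ d = f22 s t e y z) ∨
    (∃ s t e y z, a = f22 s t e y z ∧ b = -f12 s t e y z ∧ c = -f21 s t e y z ∧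
      d = f11 s t e y z)

theorem Basic.adj {a b c d : R} (h : Basic a b c d) : Basic d (-b) (-c) a := by
  rcases h with ⟨h1, h2, h3⟩ | ⟨h1, h2, h3⟩ | ⟨s, t, e, y, z, h1, h2, h3, h4⟩ |
    ⟨s, t, e, y, z, h1, h2, h3, h4⟩
  · exact Or.inl ⟨h3, by rw [h2, neg_zero], h1⟩
  · exact Or.inr (Or.inl ⟨h3, by rw [h2, neg_zero], h1⟩)
  · exact Or.inr (Or.inr (Or.inr ⟨s, t, e, y, z, h4, by rw [h2], by rw [h3], h1⟩))
  · exact Or.inr (Or.inr (Or.inl ⟨s, t, e, y, z, h4, by rw [h2, neg_neg], by rw [h3, neg_neg],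
      h1⟩))

theorem Basic.exists_blk {a b c d : R} (h : Basic a b c d) :
    ∃ p : Fin 12 → R, !![a, b; c, d] = blk p := by
  obtain ⟨z1, z2, z3, z4⟩ := f_zero (A := R)
  rcases h with ⟨h1, h2, h3⟩ | ⟨h1, h2, h3⟩ | ⟨s, t, e, y, z, h1, h2, h3, h4⟩ |
    ⟨s, t, e, y, z, h1, h2, h3, h4⟩
  · refine ⟨![b, 0, 0, 0, 0, 0, 0, 0, 0, 0, 0, 0], ?_⟩
    subst h1 h2 h3
    simp [blk, z1, z2, z3, z4]
  · refine ⟨![0, c, 0, 0, 0, 0, 0, 0, 0, 0, 0, 0], ?_⟩
    subst h1 h2 h3
    simp [blk, z1, z2, z3, z4]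
  · refine ⟨![0, 0, s, t, e, y, z, 0, 0, 0, 0, 0], ?_⟩
    subst h1 h2 h3 h4
    simp [blk, z1, z2, z3, z4]
  · refine ⟨![0, 0, 0, 0, 0, 0, 0, s, t, e, y, z], ?_⟩
    subst h1 h2 h3 h4
    simp [blk, z1, z2, z3, z4]

/-- `W n a b c d`: the matrix with these entries is a product of at most `n` basic matrices. -/
inductive W : ℕ → R → R → R → R → Prop
  | one (n : ℕ) : W n 1 0 0 1
  | cons {n : ℕ} {a b c d a' b' c' d' : R} : Basic a b c d → W n a' b' c' d' →
      W (n + 1) (a * a' + b * c') (a * b' + b * d') (c * a' + d * c') (c * b' + d * d')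

theorem W.cast {n : ℕ} {a b c d a' b' c' d' : R} (h : W n a b c d) (ha : a = a') (hb : b = b')
    (hc : c = c') (hd : d = d') : W n a' b' c' d' := by
  subst ha hb hc hd; exact h

theorem W.succ {n : ℕ} {a b c d : R} (h : W n a b c d) : W (n + 1) a b c d := by
  induction h with
  | one n => exact W.one _
  | cons hb _ ih => exact W.cons hb ih

theorem W.mono {n m : ℕ} {a b c d : R} (h : W n a b c d) (hnm : n ≤ m) : W m a b c d := by
  induction hnm with
  | refl => exact h
  | step _ ih => exact ih.succ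

theorem W.basic {a b c d : R} (h : Basic a b c d) : W 1 a b c d :=
  (W.cons h (W.one 0)).cast (by ring) (by ring) (by ring) (by ring)

theorem W.mul {n m : ℕ} {a b c d a' b' c' d' : R} (h : W n a b c d) (h' : W m a' b' c' d') :
    W (n + m) (a * a' + b * c') (a * b' + b * d') (c * a' + d * c') (c * b' + d * d') := by
  induction h with
  | one n => exact (h'.mono (by omega)).cast (by ring) (by ring) (by ring) (by ring)
  | cons hb _ ih =>
    exact ((W.cons hb ih).mono (by omega)).cast (by ring) (by ring) (by ring) (by ring)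

theorem W.adj {n : ℕ} {a b c d : R} (h : W n a b c d) : W n d (-b) (-c) a := by
  induction h with
  | one n => exact (W.one n).cast rfl (by ring) (by ring) rfl
  | cons hb _ ih =>
    exact (ih.mul (W.basic hb.adj)).cast (by ring) (by ring) (by ring) (by ring)

theorem W.exists_blks {n : ℕ} {a b c d : R} (h : W n a b c d) :
    ∃ p : Fin n → Fin 12 → R, !![a, b; c, d] = blks n p := by
  induction h with
  | one n =>
    induction n with
    | zero => exact ⟨fun _ _ => 0, by rw [blks, Matrix.one_fin_two]⟩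
    | succ n ih =>
      obtain ⟨p, hp⟩ := ih
      obtain ⟨q, hq⟩ := Basic.exists_blk (a := 1) (b := 0) (c := 0) (d := 1)
        (Or.inl ⟨rfl, rfl, rfl⟩)
      refine ⟨Fin.cons q p, ?_⟩
      simp only [blks, Fin.cons_zero, Fin.cons_succ]
      rw [← hq, ← hp]
      simp
  | cons hb _ ih =>
    obtain ⟨p, hp⟩ := ih
    obtain ⟨q, hq⟩ := hb.exists_blk
    refine ⟨Fin.cons q p, ?_⟩
    simp only [blks, Fin.cons_zero, Fin.cons_succ]
    rw [← hq, ← hp, Matrix.mul_fin_two]

theorem W.up (t : R) : W 1 1 t 0 1 := W.basic (Or.inl ⟨rfl, rfl, rfl⟩)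

theorem W.low (t : R) : W 1 1 0 t 1 := W.basic (Or.inr (Or.inl ⟨rfl, rfl, rfl⟩))

theorem W.phi (s t e y z : R) :
    W 1 (f11 s t e y z) (f12 s t e y z) (f21 s t e y z) (f22 s t e y z) :=
  W.basic (Or.inr (Or.inr (Or.inl ⟨s, t, e, y, z, rfl, rfl, rfl, rfl⟩)))

theorem W.rot : W 3 0 1 (-1) 0 :=
  (((W.up 1).mul (W.low (-1))).mul (W.up 1)).cast (by ring) (by ring) (by ring) (by ring)

theorem W.tr {n : ℕ} {a b c d : R} (h : W n a b c d) : W (n + 6) a c b d :=
  (((W.rot.adj.mul h.adj).mul W.rot).mono (by omega)).cast (by ring) (by ring) (by ring) (by ring)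

/-- Every matrix of determinant one with first row `(a, b)` is a word of length at most `n`. -/
def Triv (n : ℕ) (a b : R) : Prop := ∀ c d, a * d - b * c = 1 → W n a b c d

theorem Triv.mono {n m : ℕ} {a b : R} (h : Triv n a b) (hnm : n ≤ m) : Triv m a b :=
  fun c d hd => (h c d hd).mono hnm

theorem Triv.cast {n : ℕ} {a b a' b' : R} (h : Triv n a b) (ha : a = a') (hb : b = b') :
    Triv n a' b' := by
  subst ha hb; exact h

theorem W.triv {n : ℕ} {a b c d : R} (h : W n a b c d) (hd : a * d - b * c = 1) :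
    Triv (n + 1) a b := by
  intro c' d' hd'
  exact (((W.low (c' * d - d' * c)).mul h).mono (by omega)).cast (by ring) (by ring)
    (by linear_combination c' * hd - c * hd') (by linear_combination d' * hd - d * hd')

theorem Triv.right {n : ℕ} {a b b' : R} (h : Triv n a b) (hb : a ∣ b' - b) :
    Triv (n + 1) a b' := by
  obtain ⟨t, ht⟩ := hb
  intro c d hd
  exact ((h c (d - t * c) (by linear_combination hd + c * ht)).mul (W.up t)).cast (by ring)
    (by linear_combination -ht) (by ring) (by ring)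

theorem Triv.left {n : ℕ} {a b a' : R} (h : Triv n a b) (ha : b ∣ a' - a) :
    Triv (n + 1) a' b := by
  obtain ⟨t, ht⟩ := ha
  intro c d hd
  exact ((h (c - t * d) d (by linear_combination hd - d * ht)).mul (W.low t)).cast
    (by linear_combination -ht) (by ring) (by ring) (by ring)

theorem triv_one_zero : Triv 1 1 0 := by
  intro c d hd
  exact (W.low c).cast rfl rfl rfl (by linear_combination -hd)

theorem triv_unit {u v : R} (huv : u * v = 1) (b : R) : Triv 4 u b :=
  ((triv_one_zero.right (b' := 1) (one_dvd _)).left (a' := u) (one_dvd _)).right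
    ⟨v * (b - 1), by linear_combination (1 - b) * huv⟩

theorem W.diag {u v : R} (huv : u * v = 1) : W 4 u 0 0 v :=
  triv_unit huv 0 0 v (by linear_combination huv)

theorem Triv.scale {n : ℕ} {a b u v : R} (h : Triv n a b) (huv : u * v = 1) :
    Triv (n + 4) (u * a) (u * b) := by
  intro c d hd
  exact (((W.diag huv).mul (h (u * c) (u * d) (by linear_combination hd))).mono (by omega)).cast
    (by ring) (by ring) (by linear_combination c * huv) (by linear_combination d * huv)

theorem Triv.neg {n : ℕ} {a b : R} (h : Triv n a b) : Triv (n + 4) (-a) (-b) :=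
  (h.scale (u := -1) (v := -1) (by ring)).cast (by ring) (by ring)

theorem Triv.tr {n : ℕ} {a b c d : R} (h : Triv n a b) (hd : a * d - b * c = 1) :
    Triv (n + 7) a c :=
  (h c d hd).tr.triv (by linear_combination hd)

theorem Triv.swap {n : ℕ} {a b : R} (h : Triv n a b) : Triv (n + 3) (-b) a := by
  intro c d hd
  exact ((h d (-c) (by linear_combination hd)).mul W.rot).cast (by ring) (by ring) (by ring)
    (by ring)

theorem phi_eq {a d e y z : R} (he : e ≠ 0)
    (h : (1 + a * e) * (1 + d * e) - (e ^ 2 * y) * z = 1) :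
    W 1 ((1 + a * e) ^ 2 + (y * e) ^ 2) (e * ((1 + a * e) * (z * e) + (y * e) * (1 + d * e)))
      ((1 + a * e) * z + y * (1 + d * e)) ((z * e) ^ 2 + (1 + d * e) ^ 2) := by
  have h0 : dl a d e y z = 0 := by
    apply mul_left_cancel₀ he
    unfold dl
    linear_combination h
  exact (W.phi a d e y z).cast (by simp [f11, h0]) (by simp [f12, h0]) (by simp [f21, h0])
    (by simp [f22, h0])

theorem Triv.add_sq {n : ℕ} {a e y : R} (h : Triv n (1 + a * e) y) :
    Triv (n + 7) (1 + a * e) (e ^ 2 * y) := by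
  rcases eq_or_ne e 0 with he | he
  · subst he
    exact (triv_unit (v := 1) (by ring) _).mono (by omega)
  intro z D hd
  obtain ⟨d, rfl⟩ : ∃ d, D = 1 + d * e := ⟨e * y * z - a * D, by linear_combination hd⟩
  have h1 := (h (e ^ 2 * z) (1 + d * e) (by linear_combination hd)).tr
  exact (((phi_eq he hd).mul h1.adj).mono (by omega)).cast
    (by linear_combination (1 + a * e) * hd) (by linear_combination (e ^ 2 * y) * hd)
    (by linear_combination z * hd) (by linear_combination (1 + d * e) * hd)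

theorem Triv.drop_sq {n : ℕ} {a e y : R} (h : Triv n (1 + a * e) (e ^ 2 * y)) :
    Triv (n + 8) (1 + a * e) y := by
  rcases eq_or_ne e 0 with he | he
  · subst he
    exact (triv_unit (v := 1) (by ring) _).mono (by omega)
  intro z' D' hd'
  obtain ⟨z, D, hd⟩ : ∃ z D, (1 + a * e) * D - (e ^ 2 * y) * z = 1 :=
    ⟨z' * a ^ 2, D' - z' * (1 - a * e) * y, by linear_combination hd'⟩
  obtain ⟨d, rfl⟩ : ∃ d, D = 1 + d * e := ⟨e * y * z - a * D, by linear_combination hd⟩
  have h1 := (h z (1 + d * e) hd).adj.mul (phi_eq he hd)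
  have h2 : W (n + 1) (1 + a * e) (e ^ 2 * z) y (1 + d * e) := h1.cast
    (by linear_combination (1 + a * e) * hd) (by linear_combination (e ^ 2 * z) * hd)
    (by linear_combination y * hd) (by linear_combination (1 + d * e) * hd)
  exact (h2.tr.triv (by linear_combination hd)) z' D' hd'

end Pool.Agent.Lib.MP_19a1ab_nt
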